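import Pool.Agent.MP_5c28a4_al.H68S.Spec

/-!
Section S2: the action on a module.
-/

set_option autoImplicit false

namespace Pool.Agent.MP_5c28a4_al.H89S.StrA

open scoped commutatorElement
open StA

namespace StrMod

variable {u : ℕ → FF →₀ ℤ} {N : Type} [Group N] {K : Subgroup N} {c m d : ℕ}

lemma mod0 (hV : BVn) (hT : SClT) (hW : STow) (hu : ∀ p : ℕ, p.Prime → Good p (u p))
    (hF : Group.FG N) (hS : Group.IsSolvable N) (hK : CoVN K)
    (hB : Bdd (K.lowerCentralSeries c)) (hm : 0 < m) (hd : (pw K m).lowerCentralSeries d = ⊥)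
    {A : Type} [AddCommGroup A] (ρ : Representation ℤ N A) (h0 : Sa u ρ) :
    ∃ K₁ : Subgroup N, K₁ ≤ K ∧ CoVN K₁ ∧ Tm (nonZeroDivisors ℤ) ρ K₁ := by
  obtain ⟨K₁, n, l1, c1, hn, h1⟩ :=
    hT u 2 Nat.prime_two (hu 2 Nat.prime_two) d N A ρ hF hS h0 K c m hK hB hm hd
  have := c1.1
  have := pw_normal K₁ n
  obtain ⟨K', ⟨l2, c2⟩, h2⟩ := red (Λ := nonZeroDivisors ℤ) {K' | K' ≤ K₁ ∧ CoVN K'}
    (fun a ha b hb => ⟨a ⊓ b, ⟨inf_le_left.trans ha.1, hV.inf _ _ _ ha.2 hb.2⟩, inf_le_left,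
      inf_le_right⟩) (pw K₁ n) h0 (h1.mono' (La_le Nat.prime_two)) fun A _ σ h3 => by
      have hs := QuotientGroup.mk'_surjective (pw K₁ n)
      have hX : (K₁.map (QuotientGroup.mk' (pw K₁ n))).Normal := c1.1.map _ hs
      obtain ⟨m', D, hm', n1, f1, h4⟩ := hW u hu _ A σ (fg_of_surj hF _ hs)
        (solv_of_surj hS _ hs) h3 _ hX ⟨n, hn, by
          rintro _ ⟨x, hx, rfl⟩
          rw [← map_pow]
          exact (QuotientGroup.eq_one_iff _).2 (pow_mem_pw hx n)⟩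
      refine ⟨K₁ ⊓ (itc (K₁.map (QuotientGroup.mk' (pw K₁ n)) ⊓ D) D 1).comap
        (QuotientGroup.mk' (pw K₁ n)), ⟨inf_le_left, hV.inf _ _ _ c1 (hV.comap _ _ _ _
          (hV.itc _ _ D 1 (hV.inf _ _ _ (hV.map _ _ _ _ hs c1) (covn_of_fi D n1 f1)) n1 f1))⟩,
        m', mem_nonZeroDivisors_of_ne_zero hm', 1,
        fun a => mem_up_succ.2 fun s hs => mem_up_zero.2 ?_⟩
      obtain ⟨x, hx, rfl⟩ := hs
      exact sub_eq_zero.2 (h4 hx.2 a)
  exact ⟨K', l2.trans l1, c2, h2⟩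

lemma mod1 (hV : BVn) (hT : SClT) (hu : ∀ p : ℕ, p.Prime → Good p (u p))
    (hF : Group.FG N) (hS : Group.IsSolvable N) (hK : CoVN K)
    (hB : Bdd (K.lowerCentralSeries c)) (hm : 0 < m) (hd : (pw K m).lowerCentralSeries d = ⊥)
    (m₀ : ℕ) : 0 < m₀ → ∀ (A : Type) [AddCommGroup A] (ρ : Representation ℤ N A), Sa u ρ →
      (∀ a : A, (m₀ : ℤ) • a = 0) →
      ∃ (K₁ : Subgroup N) (n t : ℕ), K₁ ≤ K ∧ CoVN K₁ ∧ 0 < n ∧ Nil ρ (pw K₁ n) t := by
  induction m₀ using induction_on_primes with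
  | zero => exact fun h => absurd h (lt_irrefl 0)
  | one =>
    intro _ A _ ρ _ h
    exact ⟨K, 1, 0, le_rfl, hK, one_pos, fun a => mem_up_zero.2 (by simpa using h a)⟩
  | prime_mul l k hl ih =>
    intro hk A _ ρ h0 h
    obtain ⟨K₁, n, l1, c1, hn, h1⟩ := hT u l hl (hu l hl) d N _ _ hF hS
      (h0.sub (mul_inv ρ (k : ℤ))) K c m hK hB hm hd
    obtain ⟨t, h2⟩ := h1.nil fun a => Subtype.ext (by
      obtain ⟨_, b, rfl⟩ := a
      change (l : ℤ) • (k : ℤ) • b = 0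
      rw [← mul_smul, ← Nat.cast_mul, h])
    obtain ⟨K₂, n', t', l2, c2, hn', h3⟩ := ih (Nat.pos_of_mul_pos_left hk) _ _
      (h0.quot (mul_inv ρ (k : ℤ))) fun a => by
        obtain ⟨a, rfl⟩ := Submodule.Quotient.mk_surjective _ a
        rw [← Submodule.Quotient.mk_smul, Submodule.Quotient.mk_eq_zero]
        exact ⟨a, rfl⟩
    refine ⟨K₁ ⊓ K₂, n * n', t + t', inf_le_left.trans l1, hV.inf _ _ _ c1 c2,
      Nat.mul_pos hn hn', Nil.ext (mul_inv ρ (k : ℤ)) (h2.mono ?_ le_rfl) (h3.mono ?_ le_rfl)⟩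
    · exact (pw_mono inf_le_left _).trans (pw_dvd K₁ (Dvd.intro _ rfl))
    · exact (pw_mono inf_le_right _).trans (pw_dvd K₂ (Dvd.intro_left _ rfl))

end StrMod

theorem md : BVn → SClT → STow → SMod := by
  intro hV hT hW u hu N A _ _ ρ hF hS h0 K c m d hK hB hm hd
  obtain ⟨K₁, l1, c1, m', hm', t, h1⟩ := StrMod.mod0 hV hT hW hu hF hS hK hB hm hd ρ h0
  have hp : 0 < m'.natAbs := Int.natAbs_pos.2 (nonZeroDivisors.ne_zero hm')
  have h2 : ∀ a : A, (m'.natAbs : ℤ) • a ∈ up ρ K₁ t := fun a => by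
    rcases Int.natAbs_eq m' with h | h
    · rw [← h]; exact h1 a
    · have h3 := Submodule.neg_mem _ (h1 a)
      rwa [← neg_smul, h, neg_neg] at h3
  obtain ⟨K₂, n, t', l2, c2, hn, h3⟩ := StrMod.mod1 hV hT hu hF hS hK hB hm hd _ hp _ _
    (h0.quot (mul_inv ρ (m'.natAbs : ℤ))) fun a => by
      obtain ⟨a, rfl⟩ := Submodule.Quotient.mk_surjective _ a
      rw [← Submodule.Quotient.mk_smul, Submodule.Quotient.mk_eq_zero]
      exact ⟨a, rfl⟩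
  refine ⟨K₁ ⊓ K₂, n, m'.natAbs, t + t', inf_le_left.trans l1, hV.inf _ _ _ c1 c2, hn, hp,
    fun a => up_mono (Nat.le_add_right t t') (up_anti (fun x hx => hx.1) t (h2 a)),
    Nil.ext (mul_inv ρ (m'.natAbs : ℤ)) (fun a => (up_sub _).2 ?_)
      (h3.mono (pw_mono inf_le_right _) le_rfl)⟩
  obtain ⟨_, b, rfl⟩ := a
  exact up_anti ((pw_le _ n).trans inf_le_left) t (h2 b)

end Pool.Agent.MP_5c28a4_al.H89S.StrA
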